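import Pool.Agent.P8H39.TI.Stm

set_option autoImplicit false

/-! # Package PS (and LTWO) of project TI (helper75) -/

namespace Pool.Agent.P8H75.TI

open Finset Pool.Agent.P8H39.TI

noncomputable section

/-- the indicator of a family -/
def ind {n : ℕ} (F : Finset (Finset (Fin n))) : Finset (Fin n) → ℝ := fun A => if A ∈ F then 1 else 0

theorem two_k {n k t : ℕ} (h1 : 1 ≤ t) (h2 : t < k) (h3 : (t + 1) * (k - t + 1) ≤ n) :
    2 * k ≤ n := by
  obtain ⟨c, rfl⟩ : ∃ c, k = t + 1 + c := ⟨k - (t + 1), by omega⟩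
  obtain ⟨u, rfl⟩ : ∃ u, t = u + 1 := ⟨t - 1, by omega⟩
  have e : u + 1 + 1 + c - (u + 1) + 1 = c + 2 := by omega
  rw [e] at h3
  nlinarith [Nat.zero_le (u * c)]

theorem sub_slice {n k t : ℕ} {F : Finset (Finset (Fin n))} (hF : TInt k t F) :
    F ⊆ slice n k := by
  intro A hA
  exact mem_powersetCard.2 ⟨subset_univ _, hF.1 A hA⟩

theorem sum_ind {n k t : ℕ} {F : Finset (Finset (Fin n))} (hF : TInt k t F) :
    ∑ A ∈ slice n k, ind F A = F.card := by
  unfold ind
  rw [sum_ite_mem, inter_eq_right.2 (sub_slice hF)]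
  simp

theorem sum_ind_sq {n k t : ℕ} {F : Finset (Finset (Fin n))} (hF : TInt k t F) :
    ∑ A ∈ slice n k, ind F A ^ 2 = F.card := by
  rw [← sum_ind hF]
  refine sum_congr rfl fun A _ => ?_
  unfold ind
  split_ifs <;> simp

theorem up_ind {n k t : ℕ} {F : Finset (Finset (Fin n))} (hF : TInt k t F)
    (R : Finset (Fin n)) : up n k (ind F) R = deg F R := by
  unfold up ind deg
  rw [sum_ite_mem, sum_const, nsmul_eq_mul, mul_one]
  congr 2
  ext A
  simp only [mem_inter, mem_filter]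
  constructor
  · rintro ⟨⟨-, h1⟩, h2⟩
    exact ⟨h2, h1⟩
  · rintro ⟨h1, h2⟩
    exact ⟨⟨sub_slice hF h1, h2⟩, h1⟩

theorem pair_zero {n k t : ℕ} {F : Finset (Finset (Fin n))} (hF : TInt k t F) {i : ℕ}
    (hi : k < t + i) : ∑ A ∈ slice n k, ∑ B ∈ slice n k,
      ((A \ B).card.choose i : ℝ) * ind F A * ind F B = 0 := by
  refine sum_eq_zero fun A _ => sum_eq_zero fun B _ => ?_
  unfold ind
  by_cases hA : A ∈ F
  · by_cases hB : B ∈ F
    · have h1 := hF.2 A hA B hB
      have h2 := hF.1 A hA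
      have h3 := card_sdiff_add_card_inter A B
      have h4 : (A \ B).card < i := by omega
      rw [Nat.choose_eq_zero_of_lt h4]
      simp
    · simp [hB]
  · simp [hA]

/-- the spectral data of a `t`-intersecting family -/
theorem data (hHB : S_HB) (hPOL : S_POL) {n k t : ℕ} (htk : t ≤ k) (h2k : 2 * k ≤ n)
    {F : Finset (Finset (Fin n))} (hF : TInt k t F) : ∃ x : ℕ → ℝ,
    (∀ j, 0 ≤ x j) ∧ (∑ j ∈ range (k + 1), x j = F.card) ∧
    (x 0 * (n.choose k : ℝ) = (F.card : ℝ) ^ 2) ∧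
    (∀ r, r ≤ k → ∑ R ∈ slice n r, (deg F R : ℝ) ^ 2 = ∑ j ∈ range (r + 1),
        ((k - j).choose (r - j) : ℝ) * ((n - r - j).choose (k - r) : ℝ) * x j) ∧
    (∀ P : Polynomial ℝ, P.degree < (t : WithBot ℕ) →
      ∑ j ∈ range (k + 1), ev n k P j * x j = 0) ∧
    ((∃ g : Finset (Fin n) → ℝ, ∀ A ∈ slice n k, ind F A = dn t g A) →
      ∀ j, t < j → j ≤ k → x j = 0) := by
  obtain ⟨x, h0, h1, h2, h3, h4, h5⟩ := hHB n k h2k (ind F)
  refine ⟨x, h0, ?_, ?_, ?_, ?_, ?_⟩
  · rw [h1, sum_ind_sq hF]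
  · rw [h2, sum_ind hF]
  · intro r hr
    rw [← h3 r hr]
    refine sum_congr rfl fun R _ => ?_
    rw [up_ind hF]
  · refine hPOL n k t htk h2k x fun i hi hik => ?_
    rw [← h4 i hik, pair_zero hF hi]
  · exact h5 t htk

theorem star_tint {n k t : ℕ} {T : Finset (Fin n)} (hT : T.card = t) : TInt k t (star k T) := by
  constructor
  · intro A hA
    exact (mem_powersetCard.1 (mem_filter.1 hA).1).2
  · intro A hA B hB
    rw [← hT]
    exact card_le_card (subset_inter (mem_filter.1 hA).2 (mem_filter.1 hB).2)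

theorem star_dn {n k t : ℕ} {T : Finset (Fin n)} (hT : T.card = t) :
    ∃ g : Finset (Fin n) → ℝ, ∀ A ∈ slice n k, ind (star k T) A = dn t g A := by
  classical
  refine ⟨fun X => if X = T then 1 else 0, fun A hA => ?_⟩
  unfold ind dn
  rw [sum_ite_eq' (powersetCard t A) T (fun _ => (1 : ℝ))]
  have : A ∈ star k T ↔ T ∈ powersetCard t A := by
    constructor
    · intro h
      exact mem_powersetCard.2 ⟨(mem_filter.1 h).2, hT⟩
    · intro h
      exact mem_filter.2 ⟨hA, (mem_powersetCard.1 h).1⟩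
  simp only [this]

/-- splitting of `range (k + 1)` -/
theorem split_sum {s k : ℕ} (hs : s ≤ k) (u : ℕ → ℝ) : ∑ j ∈ range (k + 1), u j =
    ∑ j ∈ range (s + 1), u j + ∑ j ∈ Ico (s + 1) (k + 1), u j := by
  rw [sum_range_add_sum_Ico _ (by omega)]

/-- the identity for `P` -/
theorem sum_P {n k t s : ℕ} {P : Polynomial ℝ} {x : ℕ → ℝ} (hst : s ≤ t) (htk : t ≤ k)
    (hP1 : ∀ j, 1 ≤ j → j ≤ s → ev n k P j = -1)
    (hP2 : ∀ j, 1 ≤ j → s < j → j ≤ t → ev n k P j = 0)
    (h : ∑ j ∈ range (k + 1), ev n k P j * x j = 0) :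
    ∑ j ∈ range (s + 1), x j = (1 + ev n k P 0) * x 0 +
      ∑ j ∈ Ico (t + 1) (k + 1), ev n k P j * x j := by
  have e1 := split_sum htk (fun j => ev n k P j * x j)
  have e2 := split_sum hst (fun j => ev n k P j * x j)
  have e3 : ∑ j ∈ Ico (s + 1) (t + 1), ev n k P j * x j = 0 := by
    refine sum_eq_zero fun j hj => ?_
    rw [mem_Ico] at hj
    rw [hP2 j (by omega) (by omega) (by omega), zero_mul]
  have e4 : ∑ j ∈ range (s + 1), ev n k P j * x j =
      (1 + ev n k P 0) * x 0 - ∑ j ∈ range (s + 1), x j := by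
    rw [sum_range_succ', sum_range_succ' x]
    have : ∑ j ∈ range s, ev n k P (j + 1) * x (j + 1) = - ∑ j ∈ range s, x (j + 1) := by
      rw [← sum_neg_distrib]
      refine sum_congr rfl fun j hj => ?_
      rw [mem_range] at hj
      rw [hP1 (j + 1) (by omega) (by omega)]
      ring
    rw [this]
    ring
  linarith

/-- PS -/
theorem t_PS (hHB : S_HB) (hPOL : S_POL) (hNUM : S_NUM) : S_PS := by
  intro n k t F T ht htk hn hF hT
  have h2k := two_k ht htk hn
  obtain ⟨x, x0, x1, x2, x3, x4, -⟩ := data hHB hPOL htk.le h2k hF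
  have hS : TInt k t (star k T) := star_tint hT
  obtain ⟨z, z0, z1, z2, z3, z4, z5⟩ := data hHB hPOL htk.le h2k hS
  have z6 := z5 (star_dn hT)
  refine ⟨x, z, x0, z0, x2, z2, x3, z3, ?_⟩
  intro s hs
  rcases le_total s t with hst | hst
  · obtain ⟨P, Q, dP, dQ, hQ1, hP1, hP2, hP0, hQ0, hPQ⟩ := hNUM n k t s ht htk hn hst
    have a1 := sum_P hst htk.le hP1 hP2 (x4 P dP)
    have a2 := sum_P le_rfl htk.le hQ1 (fun j _ h1 h2 => absurd h2 (by omega)) (x4 Q dQ)
    have b1 := sum_P hst htk.le hP1 hP2 (z4 P dP)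
    have b2 := sum_P le_rfl htk.le hQ1 (fun j _ h1 h2 => absurd h2 (by omega)) (z4 Q dQ)
    have c0 : ∀ j ∈ Ico (t + 1) (k + 1), z j = 0 := by
      intro j hj
      rw [mem_Ico] at hj
      exact z6 j (by omega) (by omega)
    have c1 : ∑ j ∈ Ico (t + 1) (k + 1), ev n k P j * z j = 0 :=
      sum_eq_zero fun j hj => by rw [c0 j hj, mul_zero]
    have c2 : ∑ j ∈ Ico (t + 1) (k + 1), ev n k Q j * z j = 0 :=
      sum_eq_zero fun j hj => by rw [c0 j hj, mul_zero]
    have c3 : ∑ j ∈ Ico (t + 1) (k + 1), z j = 0 := sum_eq_zero c0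
    have d1 := split_sum htk.le x
    have d2 := split_sum htk.le z
    rw [c1, add_zero] at b1
    rw [c2, add_zero] at b2
    rw [c3, add_zero, z1, b2] at d2
    rw [x1, a2] at d1
    have key : (1 + ev n k Q 0) * ∑ j ∈ range (s + 1), x j ≤ (1 + ev n k P 0) * F.card := by
      rw [a1, d1]
      have : (1 + ev n k Q 0) * ∑ j ∈ Ico (t + 1) (k + 1), ev n k P j * x j ≤
          (1 + ev n k P 0) * (∑ j ∈ Ico (t + 1) (k + 1), ev n k Q j * x j +
            ∑ j ∈ Ico (t + 1) (k + 1), x j) := by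
        rw [← sum_add_distrib, mul_sum, mul_sum]
        refine sum_le_sum fun j hj => ?_
        rw [mem_Ico] at hj
        have h1 := mul_le_mul_of_nonneg_right (hPQ j (by omega) (by omega)) (x0 j)
        calc (1 + ev n k Q 0) * (ev n k P j * x j) = ev n k P j * (1 + ev n k Q 0) * x j := by ring
          _ ≤ (1 + ev n k P 0) * (1 + ev n k Q j) * x j := h1
          _ = (1 + ev n k P 0) * (ev n k Q j * x j + x j) := by ring
      linarith
    have hpos : 0 < 1 + ev n k Q 0 := by linarith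
    have key2 : (1 + ev n k Q 0) * ∑ j ∈ range (s + 1), z j =
        (1 + ev n k P 0) * (star k T).card := by
      rw [b1, d2]; ring
    refine le_of_mul_le_mul_left ?_ hpos
    calc (1 + ev n k Q 0) * ((∑ j ∈ range (s + 1), x j) * ((star k T).card : ℝ))
        = ((1 + ev n k Q 0) * ∑ j ∈ range (s + 1), x j) * (star k T).card := by ring
      _ ≤ ((1 + ev n k P 0) * F.card) * (star k T).card :=
        mul_le_mul_of_nonneg_right key (Nat.cast_nonneg _)
      _ = F.card * ((1 + ev n k P 0) * (star k T).card) := by ring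
      _ = F.card * ((1 + ev n k Q 0) * ∑ j ∈ range (s + 1), z j) := by rw [key2]
      _ = (1 + ev n k Q 0) * (F.card * ∑ j ∈ range (s + 1), z j) := by ring
  · have d1 := split_sum hs x
    have d2 := split_sum hs z
    have c3 : ∑ j ∈ Ico (s + 1) (k + 1), z j = 0 := by
      refine sum_eq_zero fun j hj => ?_
      rw [mem_Ico] at hj
      exact z6 j (by omega) (by omega)
    have c4 : 0 ≤ ∑ j ∈ Ico (s + 1) (k + 1), x j := sum_nonneg fun j _ => x0 j
    rw [c3, add_zero, z1] at d2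
    rw [x1] at d1
    rw [← d2]
    exact mul_le_mul_of_nonneg_right (by linarith) (Nat.cast_nonneg _)

end

end Pool.Agent.P8H75.TI
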