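import Pool.Agent.P8H39.TI.Stm2
import Pool.Agent.P8H76.TI.Num
import Pool.Agent.P8H54.TI.Pol
import Pool.Agent.P8H75.TI.Ps

set_option autoImplicit false

/-! # Package NUM2 of project TI (helper75) -/

namespace Pool.Agent.P8H75.TI

open Finset Polynomial Pool.Agent.P8H39.TI
open Pool.Agent.P8H76.TI (PP KK rr AA y_pos y_lt y_zero w_pos injOn ev_PP_zero ev_PP_big ev_PP_node
  deg_PP AA_nonneg KK_nonneg)
open Pool.Agent.P8H54.TI (NB NB_deg key)

noncomputable section

/-- Wilson's polynomial -/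
theorem wil_poly {n k t : ℕ} (_htk : t ≤ k) (h2k : 2 * k ≤ n) :
    ∃ P : Polynomial ℝ, P.degree < (t : WithBot ℕ) ∧
      ∀ j, j ≤ k → ev n k P j = theta n k t j := by
  set P : Polynomial ℝ := ∑ b ∈ range t,
    C ((-1 : ℝ) ^ (t - 1 - b) * ((k - 1 - b).choose (k - t) : ℝ) /
      ((n - k - t + b).choose (k - t) : ℝ) /
      ((b.factorial : ℝ) * ((n - 2 * k + b).factorial : ℝ))) * NB n k b with hP
  refine ⟨P, ?_, ?_⟩
  · rw [degree_lt_iff_coeff_zero]
    intro m hm
    rw [hP, finsetSum_coeff]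
    refine sum_eq_zero fun b hb => ?_
    rw [mem_range] at hb
    rw [coeff_C_mul, coeff_eq_zero_of_natDegree_lt (by rw [(NB_deg n k b).1]; omega), mul_zero]
  · intro j hj
    unfold ev theta
    rw [hP, eval_finsetSum, mul_sum]
    refine sum_congr rfl fun b _ => ?_
    rw [eval_mul, eval_C]
    have h4 := key n k j h2k hj b
    have f1 : (b.factorial : ℝ) ≠ 0 := by exact_mod_cast (Nat.factorial_pos _).ne'
    have f2 : ((n - 2 * k + b).factorial : ℝ) ≠ 0 := by exact_mod_cast (Nat.factorial_pos _).ne'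
    set c := (-1 : ℝ) ^ (t - 1 - b) * ((k - 1 - b).choose (k - t) : ℝ) /
      ((n - k - t + b).choose (k - t) : ℝ)
    calc (-1 : ℝ) ^ j * w n k j * (c / ((b.factorial : ℝ) * ((n - 2 * k + b).factorial : ℝ)) *
          (NB n k b).eval (y n j))
        = (-1 : ℝ) ^ j * (c / ((b.factorial : ℝ) * ((n - 2 * k + b).factorial : ℝ))) *
          (w n k j * (NB n k b).eval (y n j)) := by ring
      _ = _ := by
          rw [h4]
          field_simp

theorem card_star {n k t : ℕ} {T : Finset (Fin n)} (hT : T.card = t) (htk : t ≤ k) :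
    (star k T).card = (n - t).choose (k - t) := by
  classical
  have h1 : (star k T).card = (powersetCard (k - t) (univ \ T)).card := by
    refine card_nbij' (fun A => A \ T) (fun B => B ∪ T) ?_ ?_ ?_ ?_
    · intro A hA
      obtain ⟨hA1, hA2⟩ := mem_filter.1 hA
      have hA3 := (mem_powersetCard.1 hA1).2
      refine mem_coe.2 (mem_powersetCard.2 ⟨sdiff_subset_sdiff (subset_univ _) le_rfl, ?_⟩)
      rw [card_sdiff_of_subset hA2, hA3, hT]
    · intro B hB
      obtain ⟨hB1, hB2⟩ := mem_powersetCard.1 (mem_coe.1 hB)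
      have hd : Disjoint B T := disjoint_of_subset_left hB1 sdiff_disjoint
      refine mem_coe.2 (mem_filter.2 ⟨mem_powersetCard.2 ⟨subset_univ _, ?_⟩, subset_union_right⟩)
      rw [card_union_of_disjoint hd, hB2, hT]
      omega
    · intro A hA
      exact sdiff_union_of_subset (mem_filter.1 (mem_coe.1 hA)).2
    · intro B hB
      obtain ⟨hB1, hB2⟩ := mem_powersetCard.1 (mem_coe.1 hB)
      have hd : Disjoint B T := disjoint_of_subset_left hB1 sdiff_disjoint
      exact union_sdiff_cancel_right hd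
  rw [h1, card_powersetCard, card_sdiff_of_subset (subset_univ _), card_univ, Fintype.card_fin, hT]

/-- `1 + ev Q 0` -/
theorem one_add_ev (hHB : S_HB) (hPOL : S_POL) {n k t : ℕ} (htk : t ≤ k) (h2k : 2 * k ≤ n)
    {Q : Polynomial ℝ} (dQ : Q.degree < (t : WithBot ℕ))
    (hQ : ∀ j, 1 ≤ j → j ≤ t → ev n k Q j = -1) :
    (1 + ev n k Q 0) * ((n - t).choose (k - t) : ℝ) = (n.choose k : ℝ) := by
  classical
  obtain ⟨T, -, hT⟩ := exists_subset_card_eq (s := (univ : Finset (Fin n))) (n := t)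
    (by rw [card_univ, Fintype.card_fin]; omega)
  have hS : TInt k t (star k T) := star_tint hT
  obtain ⟨z, z0, z1, z2, z3, z4, z5⟩ := data hHB hPOL htk h2k hS
  have z6 := z5 (star_dn hT)
  have b2 := sum_P le_rfl htk hQ (fun j _ h1 h2 => absurd h2 (by omega)) (z4 Q dQ)
  have c0 : ∀ j ∈ Ico (t + 1) (k + 1), z j = 0 := by
    intro j hj
    rw [mem_Ico] at hj
    exact z6 j (by omega) (by omega)
  have c2 : ∑ j ∈ Ico (t + 1) (k + 1), ev n k Q j * z j = 0 :=
    sum_eq_zero fun j hj => by rw [c0 j hj, mul_zero]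
  have c3 : ∑ j ∈ Ico (t + 1) (k + 1), z j = 0 := sum_eq_zero c0
  have d2 := split_sum htk z
  rw [c2, add_zero] at b2
  rw [c3, add_zero, z1, b2] at d2
  rw [card_star hT htk] at d2 z2
  have hpos : (0 : ℝ) < ((n - t).choose (k - t) : ℝ) := by
    exact_mod_cast Nat.choose_pos (by omega)
  have h3 : ((n - t).choose (k - t) : ℝ) * ((1 + ev n k Q 0) * ((n - t).choose (k - t) : ℝ)) =
      ((n - t).choose (k - t) : ℝ) * (n.choose k : ℝ) := by
    calc ((n - t).choose (k - t) : ℝ) * ((1 + ev n k Q 0) * ((n - t).choose (k - t) : ℝ))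
        = (1 + ev n k Q 0) * ((n - t).choose (k - t) : ℝ) ^ 2 := by ring
      _ = (1 + ev n k Q 0) * (z 0 * (n.choose k : ℝ)) := by rw [z2]
      _ = ((1 + ev n k Q 0) * z 0) * (n.choose k : ℝ) := by ring
      _ = _ := by rw [← d2]
  exact mul_left_cancel₀ hpos.ne' h3

theorem prod_Icc_one (f : ℕ → ℝ) (s : ℕ) : ∏ l ∈ Icc 1 s, f l = ∏ l ∈ range s, f (l + 1) := by
  induction s with
  | zero => simp
  | succ s ih => rw [prod_Icc_succ_top (by omega), ih, prod_range_succ]

theorem cast_desc (a b : ℕ) (h : b ≤ a) : (a.descFactorial b : ℝ) = ∏ l ∈ range b, ((a : ℝ) - l) := by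
  rw [Nat.descFactorial_eq_prod_range, Nat.cast_prod]
  refine prod_congr rfl fun l hl => ?_
  rw [mem_range] at hl
  rw [Nat.cast_sub (by omega)]

/-- the closed form of the constant; `t = s + 1` -/
theorem const_form {s m κ N : ℕ} (hm1 : 1 ≤ m) (hmκ : m ≤ κ) (hκN : κ ≤ N) :
    KK (N + κ + 2 * (s + 1)) (κ + (s + 1)) (s + 1) (s + 1 + m) *
      rr (N + κ + 2 * (s + 1)) (s + 1 + m) (s + 1) *
      ((N + κ + 2 * (s + 1)).choose (κ + (s + 1)) : ℝ) * ((N + (s + 1)).descFactorial (s + 1 + m) : ℝ) =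
    ((N + κ + (s + 1)).choose κ : ℝ) * ((κ.descFactorial m : ℝ) * ((s + m).choose m : ℝ) *
      ((N : ℝ) + κ + (s + 1) + 1) * ((N + κ + (s + 1) - m).descFactorial s : ℝ)) := by
  set n := N + κ + 2 * (s + 1) with hn
  have h2k : 2 * (κ + (s + 1)) ≤ n := by omega
  have hjk : s + 1 + m ≤ κ + (s + 1) := by omega
  have hyt := y_lt h2k (by omega : s + 1 < s + 1 + m) hjk
  have hyt0 := y_pos h2k (by omega : 1 ≤ s + 1) (by omega : s + 1 ≤ κ + (s + 1))
  -- `KK * rr`
  have e1 : KK n (κ + (s + 1)) (s + 1) (s + 1 + m) * rr n (s + 1 + m) (s + 1) =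
      w n (κ + (s + 1)) (s + 1 + m) / w n (κ + (s + 1)) 0 *
        ((∏ l ∈ range s, (y n (s + 1 + m) - y n (l + 1))) / ∏ l ∈ range s, y n (l + 1)) := by
    rw [KK, rr, prod_Icc_one, prod_range_succ, ← prod_div_distrib]
    have h1 : y n (s + 1 + m) - y n (s + 1) ≠ 0 := by
      have : 0 < y n (s + 1 + m) - y n (s + 1) := by linarith
      exact this.ne'
    have h2 := hyt0.ne'
    field_simp
  have e2 : ∏ l ∈ range s, (y n (s + 1 + m) - y n (l + 1)) =
      ((s + m).descFactorial s : ℝ) * ((N + κ + (s + 1) - m).descFactorial s : ℝ) := by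
    rw [cast_desc _ _ (by omega), cast_desc _ _ (by omega), ← prod_mul_distrib]
    refine prod_congr rfl fun l hl => ?_
    rw [mem_range] at hl
    rw [Nat.cast_sub (by omega), y, y, hn]
    push_cast
    ring
  have e3 : ∏ l ∈ range s, y n (l + 1) = (s.factorial : ℝ) * (n.descFactorial s : ℝ) := by
    rw [cast_desc _ _ (by omega), ← prod_range_add_one_eq_factorial, Nat.cast_prod,
      ← prod_mul_distrib]
    refine prod_congr rfl fun l hl => ?_
    rw [y]
    push_cast
    ring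
  have f1 : ((N - m).factorial : ℝ) * ((N + (s + 1)).descFactorial (s + 1 + m) : ℝ) =
      ((N + (s + 1)).factorial : ℝ) := by
    have := Nat.factorial_mul_descFactorial (by omega : s + 1 + m ≤ N + (s + 1))
    rw [show N + (s + 1) - (s + 1 + m) = N - m by omega] at this
    exact_mod_cast this
  have f2 : ((κ - m).factorial : ℝ) * (κ.descFactorial m : ℝ) = (κ.factorial : ℝ) := by
    exact_mod_cast Nat.factorial_mul_descFactorial hmκ
  have f3 : (m.factorial : ℝ) * ((s + m).descFactorial s : ℝ) = ((s + m).factorial : ℝ) := by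
    have := Nat.factorial_mul_descFactorial (by omega : s ≤ s + m)
    rw [show s + m - s = m by omega] at this
    exact_mod_cast this
  have f4 : ((s + m).choose m : ℝ) * (m.factorial : ℝ) * (s.factorial : ℝ) =
      ((s + m).factorial : ℝ) := by
    have := Nat.choose_mul_factorial_mul_factorial (by omega : m ≤ s + m)
    rw [show s + m - m = s by omega] at this
    exact_mod_cast this
  have f5 : ((N + κ + (s + 1)).factorial : ℝ) * ((N : ℝ) + κ + (s + 1) + 1) *
      (n.descFactorial s : ℝ) = (n.factorial : ℝ) := by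
    have := Nat.factorial_mul_descFactorial (by omega : s ≤ n)
    rw [show n - s = N + κ + (s + 1) + 1 by omega, Nat.factorial_succ] at this
    have h := congrArg (Nat.cast : ℕ → ℝ) this
    push_cast at h
    rw [← h]
    ring
  have f6 : (n.choose (κ + (s + 1)) : ℝ) * ((κ + (s + 1)).factorial : ℝ) *
      ((N + (s + 1)).factorial : ℝ) = (n.factorial : ℝ) := by
    have := Nat.choose_mul_factorial_mul_factorial (by omega : κ + (s + 1) ≤ n)
    rw [show n - (κ + (s + 1)) = N + (s + 1) by omega] at this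
    exact_mod_cast this
  have f7 : ((N + κ + (s + 1)).choose κ : ℝ) * (κ.factorial : ℝ) *
      ((N + (s + 1)).factorial : ℝ) = ((N + κ + (s + 1)).factorial : ℝ) := by
    have := Nat.choose_mul_factorial_mul_factorial (by omega : κ ≤ N + κ + (s + 1))
    rw [show N + κ + (s + 1) - κ = N + (s + 1) by omega] at this
    exact_mod_cast this
  have g1 : w n (κ + (s + 1)) (s + 1 + m) = ((N - m).factorial : ℝ) / ((κ - m).factorial : ℝ) := by
    rw [w, show n - (κ + (s + 1)) - (s + 1 + m) = N - m by omega,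
      show κ + (s + 1) - (s + 1 + m) = κ - m by omega]
  have g2 : w n (κ + (s + 1)) 0 =
      ((N + (s + 1)).factorial : ℝ) / ((κ + (s + 1)).factorial : ℝ) := by
    rw [w, show n - (κ + (s + 1)) - 0 = N + (s + 1) by omega, Nat.sub_zero]
  rw [e1, e2, e3, g1, g2]
  have p1 : ((κ - m).factorial : ℝ) ≠ 0 := by exact_mod_cast (Nat.factorial_pos _).ne'
  have p2 : ((N + (s + 1)).factorial : ℝ) ≠ 0 := by exact_mod_cast (Nat.factorial_pos _).ne'
  have p3 : ((κ + (s + 1)).factorial : ℝ) ≠ 0 := by exact_mod_cast (Nat.factorial_pos _).ne'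
  have p4 : (s.factorial : ℝ) ≠ 0 := by exact_mod_cast (Nat.factorial_pos _).ne'
  have p5 : (m.factorial : ℝ) ≠ 0 := by exact_mod_cast (Nat.factorial_pos _).ne'
  have p6 : (n.descFactorial s : ℝ) ≠ 0 := by
    have : 0 < n.descFactorial s := Nat.descFactorial_pos.2 (by omega)
    exact_mod_cast this.ne'
  -- `A = C s!`
  have q1 : ((s + m).descFactorial s : ℝ) = ((s + m).choose m : ℝ) * (s.factorial : ℝ) := by
    have h : (m.factorial : ℝ) * ((s + m).descFactorial s : ℝ) =
        (m.factorial : ℝ) * (((s + m).choose m : ℝ) * (s.factorial : ℝ)) := by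
      rw [f3, ← f4]; ring
    exact mul_left_cancel₀ p5 h
  rw [q1]
  generalize ((N + κ + (s + 1) - m).descFactorial s : ℝ) = B at *
  generalize ((s + m).choose m : ℝ) = Cc at *
  generalize ((N + (s + 1)).descFactorial (s + 1 + m) : ℝ) = DF at *
  generalize (n.descFactorial s : ℝ) = D at *
  generalize (κ.descFactorial m : ℝ) = E at *
  generalize ((N : ℝ) + κ + (s + 1) + 1) = V at *
  have h : (n.choose (κ + (s + 1)) : ℝ) * ((κ + (s + 1)).factorial : ℝ) =
      ((N + κ + (s + 1)).choose κ : ℝ) * (κ.factorial : ℝ) * V * D := by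
    have : (n.choose (κ + (s + 1)) : ℝ) * ((κ + (s + 1)).factorial : ℝ) *
        ((N + (s + 1)).factorial : ℝ) =
      ((N + κ + (s + 1)).choose κ : ℝ) * (κ.factorial : ℝ) * V * D *
        ((N + (s + 1)).factorial : ℝ) := by
      rw [f6, ← f5, ← f7]; ring
    exact mul_right_cancel₀ p2 this
  have h' : ((N - m).factorial : ℝ) / ((κ - m).factorial : ℝ) /
      (((N + (s + 1)).factorial : ℝ) / ((κ + (s + 1)).factorial : ℝ)) *
      (Cc * (s.factorial : ℝ) * B / ((s.factorial : ℝ) * D)) *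
      (n.choose (κ + (s + 1)) : ℝ) * DF =
      ((N - m).factorial * DF) / (N + (s + 1)).factorial * (Cc * B / D) / ((κ - m).factorial : ℝ) *
        ((n.choose (κ + (s + 1)) : ℝ) * ((κ + (s + 1)).factorial : ℝ)) := by
    field_simp
  rw [h', f1, h, div_self p2, ← f2]
  field_simp

/-- NUM2 -/
theorem t_NUM2 (hA : S_WA) (hB : S_WB) (hST : S_STAR) (hHB : S_HB) (hPOL : S_POL) : S_NUM2 := by
  classical
  intro n k t i ht htk hn hi1 hit
  have hk : 2 * k ≤ n := two_k ht (by omega) hn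
  obtain ⟨Q, hQd, hQth⟩ := wil_poly (n := n) (k := k) (t := t) (by omega) hk
  obtain ⟨hW1, hW2⟩ := hA n k t ht (by omega) hk
  have hQ1 : ∀ j, 1 ≤ j → j ≤ t → ev n k Q j = -1 := fun j h1 h2 => by
    rw [hQth j (by omega)]
    exact hW1 j h1 h2
  have htk' : t < k := by omega
  -- `Q` is the sum of all basis polynomials
  have hQ : Q = PP n k t (fun _ => 1) := by
    refine Lagrange.eq_interpolate_of_eval_eq _ (injOn hk htk') ?_ fun i hi => ?_
    · rwa [Nat.card_Icc, Nat.add_sub_cancel]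
    · rw [mem_Icc] at hi
      have h1 := hQ1 i hi.1 hi.2
      rw [ev] at h1
      have h2 := (w_pos (n := n) (k := k) i).ne'
      have h3 : (-1 : ℝ) ^ i * (-1 : ℝ) ^ i = 1 := by rw [← mul_pow]; norm_num
      rw [one_mul, pow_succ, eq_div_iff h2]
      linear_combination (-1 : ℝ) ^ i * h1 - (w n k i * eval (y n i) Q) * h3
  set θ : ℕ → ℝ := fun l => if l = i then 1 else 0 with hθ
  have hiI : i ∈ Icc 1 t := mem_Icc.2 ⟨hi1, hit⟩
  have hA0 : ∀ l ∈ Icc 1 t, 0 ≤ AA n k t l := fun l hl => by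
    rw [mem_Icc] at hl
    exact AA_nonneg hk htk' hl.1 hl.2
  have hP0 : ev n k (PP n k t θ) 0 = AA n k t i := by
    rw [ev_PP_zero, sum_eq_single i]
    · rw [hθ]; simp
    · intro l _ hl
      rw [hθ]; simp [hl]
    · intro h; exact absurd hiI h
  have hQ0 : 0 ≤ ev n k Q 0 := by
    rw [hQ, ev_PP_zero]
    exact sum_nonneg fun l hl => mul_nonneg zero_le_one (hA0 l hl)
  refine ⟨PP n k t θ, Q, deg_PP hk htk' θ, hQd, hQ1, ?_, ?_, hQ0, ?_⟩
  · intro j h1 hj
    rw [ev_PP_node hk htk' h1 hj, hθ]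
    simp only
    split_ifs <;> simp
  · rw [hP0]
    exact hA0 i hiI
  intro j htj hj
  have hPj : ev n k (PP n k t θ) j =
      (-1 : ℝ) ^ (j + t + 1) * (KK n k t j * (rr n j i * AA n k t i)) := by
    rw [ev_PP_big hk htj hj, sum_eq_single i]
    · rw [hθ]; simp
    · intro l _ hl
      rw [hθ]; simp [hl]
    · intro h; exact absurd hiI h
  obtain ⟨m, rfl⟩ : ∃ m, j = t + m := ⟨j - t, by omega⟩
  have hm1 : 1 ≤ m := by omega
  have hyi0 := y_pos hk hi1 (by omega : i ≤ k)
  have hyij := y_lt hk (by omega : i < t + m) hj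
  have hyt0 := y_pos hk ht (by omega : t ≤ k)
  have hytj := y_lt hk (by omega : t < t + m) hj
  have hK := KK_nonneg (n := n) hk htj hj
  have hri : 0 ≤ rr n (t + m) i := div_nonneg hyi0.le (by linarith)
  have hAi := hA0 i hiI
  -- parameters
  obtain ⟨κ, rfl⟩ : ∃ κ, k = κ + t := ⟨k - t, by omega⟩
  rw [Nat.add_sub_cancel] at hn
  have hmul : t * κ + t + κ + 1 ≤ n := by
    have : (t + 1) * (κ + 1) = t * κ + t + κ + 1 := by ring
    omega
  have hmul2 : t + κ ≤ t * κ + 1 := by
    obtain ⟨a, rfl⟩ : ∃ a, t = a + 1 := ⟨t - 1, by omega⟩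
    obtain ⟨b, rfl⟩ : ∃ b, κ = b + 1 := ⟨κ - 1, by omega⟩
    have : (a + 1) * (b + 1) = a * b + a + b + 1 := by ring
    omega
  obtain ⟨N, hN⟩ : ∃ N, n = N + κ + 2 * t := ⟨n - κ - 2 * t, by omega⟩
  have hNt : t * (κ - 1) + 1 ≤ N := by
    have : t * (κ - 1) = t * κ - t := by rw [Nat.mul_sub, mul_one]
    have h3 : t ≤ t * κ := Nat.le_mul_of_pos_right _ (by omega)
    omega
  have hκN : κ ≤ N := by omega
  have hmκ : m ≤ κ := by omega
  have hQj : ev n (κ + t) Q (t + m) = (-1 : ℝ) ^ (m - 1) * TT t m κ N := by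
    rw [hQth _ hj, hW2 m hm1 hj, Nat.add_sub_cancel, show n - (κ + t) - t = N by omega]
  rcases Nat.even_or_odd m with hpar | hpar
  · -- `m` even
    have hs1 : (-1 : ℝ) ^ (t + m + t + 1) = -1 := by
      have : Odd (t + m + t + 1) := by
        obtain ⟨a, ha⟩ := hpar
        exact ⟨t + a, by omega⟩
      exact this.neg_one_pow
    have hs2 : (-1 : ℝ) ^ (m - 1) = -1 := by
      have : Odd (m - 1) := by
        obtain ⟨a, ha⟩ := hpar
        exact ⟨a - 1, by omega⟩
      exact this.neg_one_pow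
    have hm2 : 2 ≤ m := by
      obtain ⟨a, ha⟩ := hpar
      omega
    have hT1 := hB t m κ N ht hm2 hmκ hNt hκN
    have h1 : 0 ≤ 1 + ev n (κ + t) Q (t + m) := by
      rw [hQj, hs2]; linarith
    have h2 : ev n (κ + t) (PP n (κ + t) t θ) (t + m) ≤ 0 := by
      rw [hPj, hs1]
      have := mul_nonneg hK (mul_nonneg hri hAi)
      linarith
    calc ev n (κ + t) (PP n (κ + t) t θ) (t + m) * (1 + ev n (κ + t) Q 0) ≤ 0 :=
          mul_nonpos_of_nonpos_of_nonneg h2 (by linarith)
      _ ≤ _ := by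
          rw [hP0]
          exact mul_nonneg (by linarith) h1
  · have hs1 : (-1 : ℝ) ^ (t + m + t + 1) = 1 := by
      have : Even (t + m + t + 1) := by
        obtain ⟨a, ha⟩ := hpar
        exact ⟨t + a + 1, by omega⟩
      exact this.neg_one_pow
    have hs2 : (-1 : ℝ) ^ (m - 1) = 1 := by
      have : Even (m - 1) := by
        obtain ⟨a, ha⟩ := hpar
        exact ⟨a, by omega⟩
      exact this.neg_one_pow
    rw [hPj, hs1, hQj, hs2, hP0, one_mul, one_mul]
    -- monotonicity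
    have hrr : rr n (t + m) i ≤ rr n (t + m) t := by
      rw [rr, rr, div_le_div_iff₀ (by linarith) (by linarith)]
      have hle : y n i ≤ y n t := Pool.Agent.P8H76.TI.y_le hk hit (by omega)
      nlinarith
    have hone := one_add_ev hHB hPOL (by omega : t ≤ κ + t) hk hQd hQ1
    rw [Nat.add_sub_cancel] at hone
    have hstar := hST t m κ N ht hm1 hmκ (by omega) hNt
    obtain ⟨s, rfl⟩ : ∃ s, t = s + 1 := ⟨t - 1, by omega⟩
    have hcf := const_form (s := s) hm1 hmκ hκN
    rw [← hN] at hcf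
    rw [show n - (s + 1) = N + κ + (s + 1) by omega] at hone
    rw [show s + 1 + m - 1 = s + m by omega, Nat.add_sub_cancel] at hstar
    push_cast at hstar hcf hone
    have hc0 : (0 : ℝ) < ((N + κ + (s + 1)).choose κ : ℝ) := by
      exact_mod_cast Nat.choose_pos (by omega)
    have hDF : (0 : ℝ) < ((N + (s + 1)).descFactorial (s + 1 + m) : ℝ) := by
      exact_mod_cast Nat.descFactorial_pos.2 (by omega)
    have hmain : KK n (κ + (s + 1)) (s + 1) (s + 1 + m) * rr n (s + 1 + m) (s + 1) *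
        (1 + ev n (κ + (s + 1)) Q 0) ≤ 2 * (1 + TT (s + 1) m κ N) := by
      have h1 : (KK n (κ + (s + 1)) (s + 1) (s + 1 + m) * rr n (s + 1 + m) (s + 1) *
          (1 + ev n (κ + (s + 1)) Q 0)) * ((N + (s + 1)).descFactorial (s + 1 + m) : ℝ) =
          (κ.descFactorial m : ℝ) * ((s + m).choose m : ℝ) *
            ((N : ℝ) + κ + (s + 1) + 1) * ((N + κ + (s + 1) - m).descFactorial s : ℝ) := by
        refine mul_left_cancel₀ hc0.ne' ?_
        rw [← hcf, ← hone]
        ring
      refine le_of_mul_le_mul_right ?_ hDF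
      rw [h1]
      exact hstar
    have hKr : KK n (κ + (s + 1)) (s + 1) (s + 1 + m) * rr n (s + 1 + m) i ≤
        KK n (κ + (s + 1)) (s + 1) (s + 1 + m) * rr n (s + 1 + m) (s + 1) :=
      mul_le_mul_of_nonneg_left hrr hK
    have hev0 : 0 ≤ 1 + ev n (κ + (s + 1)) Q 0 := by linarith
    calc KK n (κ + (s + 1)) (s + 1) (s + 1 + m) *
          (rr n (s + 1 + m) i * AA n (κ + (s + 1)) (s + 1) i) * (1 + ev n (κ + (s + 1)) Q 0)
        = (KK n (κ + (s + 1)) (s + 1) (s + 1 + m) * rr n (s + 1 + m) i *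
          (1 + ev n (κ + (s + 1)) Q 0)) * AA n (κ + (s + 1)) (s + 1) i := by ring
      _ ≤ (KK n (κ + (s + 1)) (s + 1) (s + 1 + m) * rr n (s + 1 + m) (s + 1) *
          (1 + ev n (κ + (s + 1)) Q 0)) * AA n (κ + (s + 1)) (s + 1) i :=
          mul_le_mul_of_nonneg_right (mul_le_mul_of_nonneg_right hKr hev0) hAi
      _ ≤ (2 * (1 + TT (s + 1) m κ N)) * AA n (κ + (s + 1)) (s + 1) i :=
          mul_le_mul_of_nonneg_right hmain hAi
      _ = _ := by ring

end

end Pool.Agent.P8H75.TI
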