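import Pool.Agent.P8H39.TI.Stm5
import Pool.Agent.P8H94.TI.Th3

/-! # TI/TH5 (helper75): the level `t + 1` (copy of the proof of TH3 by helper94) -/

set_option autoImplicit false
set_option linter.all false

namespace Pool.Agent.P8H75.TI

open Finset
open Pool.Agent.P8H39.TI Pool.Agent.P8H59.TI Pool.Agent.P8H94.TI

/-- the main case -/
theorem th5_main (hL : S_LVL5) (hB : S_B5) (hM : S_LAM5) (n k t : ℕ) (c : ℝ)
    (F : Finset (Finset (Fin n))) (T : Finset (Fin n)) (h1 : 2 ≤ t) (hk : t + 3 ≤ k)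
    (hn : (t + 1) * (k - t + 1) ≤ n) (hor : k + 2 ≤ 2 * t ∨ t * (k - t + 3) ≤ n + 1)
    (hF : TInt k t F) (hT : T.card = t) (hc : 0 ≤ c)
    (hcs : c ≤ ((n - t - 2).choose (n - k) : ℝ)) :
    ∑ R ∈ slice n (t + 1), (max ((deg F R : ℝ) - c) 0) ^ 2 ≤
      ∑ R ∈ slice n (t + 1), (max ((deg (star k T) R : ℝ) - c) 0) ^ 2 := by
  classical
  obtain ⟨κ, rfl⟩ : ∃ κ, k = t + κ := ⟨k - t, by omega⟩
  have hn' := hn
  have hor' := hor
  rw [Nat.add_sub_cancel_left] at hn hor
  have haκ : 3 ≤ κ := by omega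
  have hq1 : (t + 1) * (κ + 1) = t * κ + t + κ + 1 := by ring
  have hq2 : t * 3 ≤ t * κ := Nat.mul_le_mul_left _ haκ
  have hq3 : t * (κ + 3) = t * κ + 3 * t := by ring
  have hkn : t + κ ≤ n := by omega
  obtain ⟨hFS, x, z, hx0, hxz, hx, hz, hz0⟩ := hL n (t + κ) t F T (by omega) (by omega) hn' hF hT
  have hcard := card_star (k := t + κ) hT (by omega) hkn
  have hDpos : 0 < (star (t + κ) T).card := by
    rw [hcard]
    exact Nat.choose_pos (by omega)
  have hDR : (0 : ℝ) < ((star (t + κ) T).card : ℝ) := by exact_mod_cast hDpos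
  have hFD : (F.card : ℝ) ≤ ((star (t + κ) T).card : ℝ) := by exact_mod_cast hFS
  have hνκ : n - t - (t + κ - t) = n - (t + κ) := by omega
  have hrk : (t + 1) * (t + κ - t) + 1 ≤ n - t := by
    rw [Nat.add_sub_cancel_left]
    have : (t + 1) * κ = t * κ + κ := by ring
    omega
  have hor2 : (t + κ - t) + 2 ≤ t ∨ t * (t + κ - t) + 2 * t ≤ (n - t) + 1 := by
    rw [Nat.add_sub_cancel_left]
    omega
  have hrk2 : (t + 1) + (t + κ) ≤ n := by omega
  have hcD : c ≤ ((n - t).choose (t + κ - t) : ℝ) := by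
    refine hcs.trans ?_
    have e1 : (n - t).choose (t + κ - t) = (n - t).choose (n - (t + κ)) := by
      rw [← hνκ, Nat.choose_symm (by omega)]
    rw [e1]
    exact_mod_cast Nat.choose_le_choose _ (by omega)
  obtain ⟨b, b1, b2, b3⟩ := hB t (t + κ - t) (n - t) c h1 (by omega) hrk hor2 hc hcD
  have hbT := b3
  unfold Tight at b3
  set D : ℝ := ((star (t + κ) T).card : ℝ) with hD
  obtain ⟨b', hb'⟩ : ∃ b' : ℕ → ℝ, b' = fun e => b e - c / D := ⟨_, rfl⟩
  have key1 : ∑ R ∈ slice n (t + 1), (max ((deg F R : ℝ) - c) 0) ^ 2 ≤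
      ∑ R ∈ slice n (t + 1), (∑ A ∈ F, b' (R \ A).card) ^ 2 := by
    refine Finset.sum_le_sum fun R _ => ?_
    have e1 : (deg F R : ℝ) - c ≤ ∑ A ∈ F, b' (R \ A).card := by
      simp only [hb', Finset.sum_sub_distrib, Finset.sum_const, nsmul_eq_mul]
      have e2 : (deg F R : ℝ) ≤ ∑ A ∈ F, b (R \ A).card := by
        unfold deg
        have : ((F.filter (fun A => R ⊆ A)).card : ℝ) =
            ∑ A ∈ F.filter (fun A => R ⊆ A), b (R \ A).card := by
          rw [Finset.sum_congr rfl (g := fun _ => (1 : ℝ))]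
          · simp
          · intro A hA
            rw [Finset.mem_filter] at hA
            rw [Finset.sdiff_eq_empty_iff_subset.mpr hA.2, Finset.card_empty, b1]
        rw [this]
        exact Finset.sum_le_sum_of_subset_of_nonneg (Finset.filter_subset _ _)
          (fun A _ _ => b2 _)
      have e3 : (F.card : ℝ) * (c / D) ≤ c := by
        rw [mul_div_assoc', div_le_iff₀ hDR]
        have := mul_le_mul_of_nonneg_right hFD hc
        linarith
      linarith
    rcases le_total 0 ((deg F R : ℝ) - c) with e4 | e4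
    · rw [max_eq_left e4]
      exact pow_le_pow_left₀ e4 e1 2
    · rw [max_eq_right e4]
      calc (0 : ℝ) ^ 2 = 0 := by norm_num
        _ ≤ _ := sq_nonneg _
  -- the star
  have key3 : ∑ R ∈ slice n (t + 1), (∑ A ∈ star (t + κ) T, b' (R \ A).card) ^ 2 =
      ∑ R ∈ slice n (t + 1), (max ((deg (star (t + κ) T) R : ℝ) - c) 0) ^ 2 := by
    refine Finset.sum_congr rfl fun R hR => ?_
    rw [Finset.mem_powersetCard] at hR
    have hl : (R \ T).card ≤ t + 1 := by rw [← hR.2]; exact Finset.card_le_card Finset.sdiff_subset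
    simp only [hb', Finset.sum_sub_distrib, Finset.sum_const, nsmul_eq_mul]
    rw [sum_star hT (by omega) hR.2 hrk2, b3 _ hl, deg_star hT (by omega) hkn, ← hD,
      mul_div_cancel₀ _ hDR.ne']
    congr 1
    rcases le_total c (((n - t - (R \ T).card).choose (n - t - (t + κ - t)) : ℕ) : ℝ) with e5 | e5
    · rw [max_eq_left e5, max_eq_left (by linarith)]
    · rw [max_eq_right e5, max_eq_right (by linarith)]
      ring
  set V : ℝ := ∑ R ∈ slice n (t + 1), (max ((deg (star (t + κ) T) R : ℝ) - c) 0) ^ 2 with hV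
  have hV0 : 0 ≤ V := sum_nonneg fun _ _ => sq_nonneg _
  -- a lower bound of `V`
  have hVlow : ((n - t : ℕ) : ℝ) * (((n - t - 1).choose (n - (t + κ)) : ℝ) -
      ((n - t - 2).choose (n - (t + κ)) : ℝ)) ^ 2 ≤ V := by
    have e1 : ((star (t + 1) T).card : ℝ) = ((n - t : ℕ) : ℝ) := by
      rw [card_star (k := t + 1) hT (by omega) (by omega), Nat.add_sub_cancel_left,
        Nat.choose_one_right]
    have hmono : (((n - t - 2).choose (n - (t + κ)) : ℕ) : ℝ) ≤
        (((n - t - 1).choose (n - (t + κ)) : ℕ) : ℝ) := by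
      exact_mod_cast Nat.choose_le_choose _ (by omega)
    rw [← e1, ← nsmul_eq_mul, ← sum_const]
    refine (sum_le_sum (g := fun R => (max ((deg (star (t + κ) T) R : ℝ) - c) 0) ^ 2) fun R hR => ?_).trans
      (sum_le_sum_of_subset_of_nonneg (filter_subset _ _) fun _ _ _ => sq_nonneg _)
    rw [mem_star] at hR
    have hl : (R \ T).card = 1 := by
      rw [card_sdiff_of_subset hR.2, hR.1, hT]
      omega
    rw [deg_star hT (by omega) hkn, hl, hνκ]
    refine pow_le_pow_left₀ (by linarith) ?_ 2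
    exact le_max_of_le_left (by linarith)
  -- the sums over the degrees
  have hVz : V = ∑ j ∈ range (t + 1), lamb n (t + κ) (t + 1) b' j * z j := by
    rw [← key3, hz (t + 1) (by omega) b', sum_range_succ _ (t + 1), hz0 (t + 1) (by omega) (by omega),
      mul_zero, add_zero]
  have hlow : (∑ j ∈ range (t + 1), lamb n (t + κ) (t + 1) b' j * x j) * D +
      V * x (t + 1) ≤ V * D := by
    have e1 : ∀ j ∈ range (t + 1), lamb n (t + κ) (t + 1) b' j * x j * D +
        (lamb n (t + κ) (t + 1) b' j * z j) * x (t + 1) ≤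
        lamb n (t + κ) (t + 1) b' j * z j * D := by
      intro j hj
      rw [mem_range] at hj
      have h := mul_le_mul_of_nonneg_left (hxz j (by omega)) (lamb_nonneg n (t + κ) (t + 1) b' j)
      nlinarith [h]
    have e2 := sum_le_sum e1
    rw [sum_add_distrib, ← sum_mul, ← sum_mul, ← sum_mul, ← hVz] at e2
    exact e2
  have hhigh : lamb n (t + κ) (t + 1) b' (t + 1) * x (t + 1) * D ≤ V * x (t + 1) := by
    have h := hM n (t + κ) t c b h1 (by omega) hn' hc hcs hbT
    have e3 : lamb n (t + κ) (t + 1) b' (t + 1) = lamb n (t + κ) (t + 1) b (t + 1) := by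
      rw [hb']
      exact lamb_shift _ _ _ _ _ _ (by omega) (by omega)
    have e4 : lamb n (t + κ) (t + 1) b (t + 1) * D ≤ V := by
      rw [hD, hcard]
      exact h.trans hVlow
    rw [e3]
    have h2 := mul_le_mul_of_nonneg_right e4 (hx0 (t + 1))
    linarith
  refine key1.trans ?_
  rw [hx (t + 1) (by omega) b', sum_range_succ _ (t + 1)]
  refine le_of_mul_le_mul_right ?_ hDR
  rw [add_mul]
  linarith

/-- **TH5** -/
theorem t_TH5 (hL : S_LVL5) (hB : S_B5) (hM : S_LAM5) : S_TH5 := by
  classical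
  intro n k t c F T h1 h3 hn hor hF hT hc
  have hκ : 3 ≤ k - t := by omega
  have hq1 : (t + 1) * (k - t + 1) = t * (k - t) + t + (k - t) + 1 := by ring
  have hq2 : t * 3 ≤ t * (k - t) := Nat.mul_le_mul_left _ hκ
  have hkn : k + 4 ≤ n := by omega
  set sa : ℝ := ((n - t - 1).choose (n - k) : ℝ) with hsa
  set sb : ℝ := ((n - t - 2).choose (n - k) : ℝ) with hsb
  have hsb0 : 0 ≤ sb := by positivity
  have hab : sb < sa := by
    obtain ⟨q, hq⟩ : ∃ q, n - k = q + 1 := ⟨n - k - 1, by omega⟩
    obtain ⟨N, hN⟩ : ∃ N, n - t - 1 = N + 1 := ⟨n - t - 1 - 1, by omega⟩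
    have hN2 : n - t - 2 = N := by omega
    rw [hsa, hsb, hq, hN, hN2, Nat.choose_succ_succ]
    have h6 : 0 < N.choose q := Nat.choose_pos (by omega)
    exact_mod_cast (by omega : N.choose (q + 1) < N.choose q + N.choose (q + 1))
  have hdF : ∀ R ∈ slice n (t + 1), (deg F R : ℝ) ≤ sa := by
    intro R hR
    rw [mem_powersetCard] at hR
    have h := deg_le (k := k) hF hR.2 (by omega) (by omega)
    have e : (n - (t + 1)).choose (k - (t + 1)) = (n - t - 1).choose (n - k) := by
      rw [← Nat.choose_symm (by omega)]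
      congr 1 <;> omega
    rw [e] at h
    rw [hsa]
    exact_mod_cast h
  have hdS : ∀ R ∈ slice n (t + 1), (deg (star k T) R : ℝ) = sa ∨ (deg (star k T) R : ℝ) ≤ sb := by
    intro R hR
    rw [mem_powersetCard] at hR
    rw [deg_star hT (by omega) (by omega)]
    have hl : 1 ≤ (R \ T).card := by
      have h := Finset.le_card_sdiff T R
      rw [hR.2, hT] at h
      omega
    have hν : n - t - (k - t) = n - k := by omega
    rw [hν]
    rcases hl.eq_or_lt with h | h
    · left
      rw [← h]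
    · right
      rw [hsb]
      exact_mod_cast Nat.choose_le_choose _ (by omega)
  rcases le_total c sb with hcb | hcb
  · exact th5_main hL hB hM n k t c F T h1 h3 hn hor hF hT hc hcb
  rcases le_total sa c with hca | hca
  · have e1 : ∀ R ∈ slice n (t + 1), (max ((deg F R : ℝ) - c) 0) ^ 2 = 0 := by
      intro R hR
      rw [max_eq_right (by linarith [hdF R hR])]
      norm_num
    rw [Finset.sum_congr rfl e1, Finset.sum_const_zero]
    exact Finset.sum_nonneg fun R _ => by positivity
  · have hd : 0 < sa - sb := by linarith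
    set ρ : ℝ := (sa - c) / (sa - sb) with hρ
    have hρ0 : 0 ≤ ρ := div_nonneg (by linarith) hd.le
    have hρ1 : ρ * (sa - sb) = sa - c := div_mul_cancel₀ _ hd.ne'
    have hmain := th5_main hL hB hM n k t sb F T h1 h3 hn hor hF hT hsb0 le_rfl
    calc ∑ R ∈ slice n (t + 1), (max ((deg F R : ℝ) - c) 0) ^ 2
        ≤ ∑ R ∈ slice n (t + 1), ρ ^ 2 * (max ((deg F R : ℝ) - sb) 0) ^ 2 := by
          refine sum_le_sum fun R hR => ?_
          rw [← mul_pow]
          refine pow_le_pow_left₀ (le_max_right _ _) ?_ 2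
          have h := hdF R hR
          refine max_le ?_ (mul_nonneg hρ0 (le_max_right _ _))
          rcases le_total c (deg F R : ℝ) with h5 | h5
          · refine le_trans ?_ (mul_le_mul_of_nonneg_left (le_max_left _ _) hρ0)
            have h6 : ρ ≤ 1 := by
              rw [hρ, div_le_one hd]
              linarith
            nlinarith
          · exact le_trans (by linarith) (mul_nonneg hρ0 (le_max_right _ _))
      _ = ρ ^ 2 * ∑ R ∈ slice n (t + 1), (max ((deg F R : ℝ) - sb) 0) ^ 2 := by rw [mul_sum]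
      _ ≤ ρ ^ 2 * ∑ R ∈ slice n (t + 1), (max ((deg (star k T) R : ℝ) - sb) 0) ^ 2 :=
          mul_le_mul_of_nonneg_left hmain (sq_nonneg _)
      _ = ∑ R ∈ slice n (t + 1), ρ ^ 2 * (max ((deg (star k T) R : ℝ) - sb) 0) ^ 2 := by rw [mul_sum]
      _ ≤ ∑ R ∈ slice n (t + 1), (max ((deg (star k T) R : ℝ) - c) 0) ^ 2 := by
          refine sum_le_sum fun R hR => ?_
          rw [← mul_pow]
          refine pow_le_pow_left₀ (mul_nonneg hρ0 (le_max_right _ _)) ?_ 2
          rcases hdS R hR with h5 | h5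
          · rw [h5, max_eq_left hd.le, hρ1]
            exact le_max_left _ _
          · rw [max_eq_right (by linarith), mul_zero]
            exact le_max_right _ _

end Pool.Agent.P8H75.TI
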